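import Mathlib

set_option autoImplicit false
set_option linter.unusedSectionVars false

/-! Iterated backward differences and derivatives in the mean. -/

namespace Pool.Agent.X111.DL

open MeasureTheory Filter Topology

variable {E : Type*} [NormedAddCommGroup E] [NormedSpace ℂ E] [CompleteSpace E]

/-- iterated backward differences -/
noncomputable def nb (h : ℝ) : ℕ → (ℝ → E) → ℝ → E
  | 0, Φ => Φ
  | m + 1, Φ => fun t => nb h m Φ t - nb h m Φ (t - h)

lemma nb_succ (h : ℝ) (m : ℕ) (Φ : ℝ → E) (t : ℝ) : nb h (m + 1) Φ t = nb h m Φ t - nb h m Φ (t - h) := rfl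

lemma nb_cont (h : ℝ) {Φ : ℝ → E} (hΦ : Continuous Φ) (m : ℕ) : Continuous (nb h m Φ) := by
  induction m with
  | zero => exact hΦ
  | succ m ih => exact ih.sub (ih.comp (continuous_id.sub continuous_const))

lemma nb_deriv (h : ℝ) {c : ℂ} {G : ℕ → ℝ → E} (hG : ∀ l t, HasDerivAt (G l) (c • G (l + 1) t) t) (m : ℕ) :
    ∀ l t, HasDerivAt (nb h m (G l)) (c • nb h m (G (l + 1)) t) t := by
  induction m with
  | zero => exact hG
  | succ m ih =>
    intro l t
    have h1 := ih l t
    have h2 := (ih l (t - h)).comp_sub_const t h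
    have h3 := h1.sub h2
    rw [← smul_sub] at h3
    exact h3

lemma pw {p : ℝ} (hp : 1 ≤ p) {h : ℝ} (hh : 0 < h) (t : ℝ) {g : ℝ → E} (hg : Continuous g) :
    ‖∫ u in (t - h)..t, g u‖ ^ p ≤ h ^ (p - 1) * ∫ u in (t - h)..t, ‖g u‖ ^ p := by
  have hp0 : 0 < p := by linarith
  have hle : t - h ≤ t := by linarith
  have h1 : ‖∫ u in (t - h)..t, g u‖ ≤ ∫ u in (t - h)..t, ‖g u‖ := intervalIntegral.norm_integral_le_integral_norm hle
  have hc1 : Continuous fun u => ‖g u‖ := hg.norm
  have hc2 : Continuous fun u => ‖g u‖ ^ p := hg.norm.rpow_const fun _ => Or.inr hp0.le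
  have h2 := (convexOn_rpow hp).map_set_average_le (μ := volume) (t := Set.Ioc (t - h) t) (f := fun u => ‖g u‖)
    (continuous_id.rpow_const fun _ => Or.inr hp0.le).continuousOn isClosed_Ici (by rw [Real.volume_Ioc]; simp [hh]) (by rw [Real.volume_Ioc]; simp)
    (Eventually.of_forall fun u => norm_nonneg _) (hc1.integrableOn_Ioc) (hc2.integrableOn_Ioc)
  rw [setAverage_eq, setAverage_eq, Real.volume_real_Ioc_of_le hle, sub_sub_cancel, smul_eq_mul, smul_eq_mul,
    ← intervalIntegral.integral_of_le hle, ← intervalIntegral.integral_of_le hle] at h2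
  have h0 : 0 ≤ ∫ u in (t - h)..t, ‖g u‖ := intervalIntegral.integral_nonneg hle fun u _ => norm_nonneg _
  calc ‖∫ u in (t - h)..t, g u‖ ^ p ≤ (∫ u in (t - h)..t, ‖g u‖) ^ p := Real.rpow_le_rpow (norm_nonneg _) h1 hp0.le
    _ = h ^ p * (h⁻¹ * ∫ u in (t - h)..t, ‖g u‖) ^ p := by
        rw [← Real.mul_rpow hh.le (by positivity), mul_inv_cancel_left₀ hh.ne']
    _ ≤ h ^ p * (h⁻¹ * ∫ u in (t - h)..t, ‖g u‖ ^ p) := mul_le_mul_of_nonneg_left h2 (by positivity)
    _ = h ^ (p - 1) * ∫ u in (t - h)..t, ‖g u‖ ^ p := by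
        rw [← mul_assoc, Real.rpow_sub_one hh.ne', div_eq_mul_inv]

lemma dbl {g : ℝ → ℝ} (hg : Continuous g) (hg0 : ∀ t, 0 ≤ g t) {h : ℝ} (hh : 0 < h) (a b : ℝ) :
    ∫ t in Set.Icc a b, ∫ u in (t - h)..t, g u ≤ h * ∫ u in Set.Icc (a - h) b, g u := by
  have e1 : ∀ t, ∫ u in (t - h)..t, g u = ∫ s in Set.Icc 0 h, g (t - s) := by
    intro t
    rw [integral_Icc_eq_integral_Ioc, ← intervalIntegral.integral_of_le hh.le, intervalIntegral.integral_comp_sub_left (fun u => g u) t, sub_zero]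
  simp_rw [e1]
  have hprod : Integrable (fun x : ℝ × ℝ => g (x.1 - x.2)) ((volume.restrict (Set.Icc a b)).prod (volume.restrict (Set.Icc 0 h))) := by
    rw [Measure.prod_restrict]
    exact (hg.comp (continuous_fst.sub continuous_snd)).continuousOn.integrableOn_compact (isCompact_Icc.prod isCompact_Icc)
  rw [integral_integral_swap (f := fun t s => g (t - s)) hprod]
  have h1 : ∫ s in Set.Icc 0 h, ∫ t in Set.Icc a b, g (t - s) ≤ ∫ _s in Set.Icc 0 h, ∫ u in Set.Icc (a - h) b, g u := by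
    refine setIntegral_mono_on hprod.swap.integral_prod_left (integrableOn_const (by rw [Real.volume_Icc]; simp)) measurableSet_Icc fun s hs => ?_
    rcases le_or_gt a b with hab | hab
    · rw [integral_Icc_eq_integral_Ioc, ← intervalIntegral.integral_of_le hab, intervalIntegral.integral_comp_sub_right (fun u => g u) s,
        intervalIntegral.integral_of_le (by linarith), ← integral_Icc_eq_integral_Ioc]
      refine setIntegral_mono_set (hg.continuousOn.integrableOn_compact isCompact_Icc) (Eventually.of_forall hg0) ?_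
      exact (Set.Icc_subset_Icc (by linarith [hs.2]) (by linarith [hs.1])).eventuallyLE
    · rw [Set.Icc_eq_empty (by linarith), Measure.restrict_empty, integral_zero_measure]
      exact integral_nonneg hg0
  refine h1.trans (le_of_eq ?_)
  rw [setIntegral_const, Real.volume_real_Icc_of_le hh.le, sub_zero, smul_eq_mul]

/-- differences and derivatives in the mean -/
theorem fd {p : ℝ} (hp : 1 ≤ p) {h : ℝ} (hh : 0 < h) {c : ℂ} (hc : ‖c‖ = 1) {G : ℕ → ℝ → E} (hG : ∀ l t, HasDerivAt (G l) (c • G (l + 1) t) t) (m : ℕ) :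
    ∀ l a b, ∫ t in Set.Icc a b, ‖nb h m (G l) t‖ ^ p ≤ h ^ (p * m) * ∫ t in Set.Icc (a - m * h) b, ‖G (l + m) t‖ ^ p := by
  have hp0 : 0 < p := by linarith
  have hGc : ∀ l, Continuous (G l) := fun l => continuous_iff_continuousAt.mpr fun t => (hG l t).continuousAt
  induction m with
  | zero =>
    intro l a b
    simp [nb]
  | succ m ih =>
    intro l a b
    have hc1 : Continuous (nb h m (G (l + 1))) := nb_cont h (hGc _) m
    have hc2 : Continuous fun u => ‖nb h m (G (l + 1)) u‖ ^ p := hc1.norm.rpow_const fun _ => Or.inr hp0.le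
    have e1 : ∀ t, nb h (m + 1) (G l) t = ∫ u in (t - h)..t, c • nb h m (G (l + 1)) u := by
      intro t
      rw [intervalIntegral.integral_eq_sub_of_hasDerivAt (fun u _ => nb_deriv h hG m l u) ((hc1.const_smul c).intervalIntegrable _ _)]
      rfl
    have h1 : ∀ t, ‖nb h (m + 1) (G l) t‖ ^ p ≤ h ^ (p - 1) * ∫ u in (t - h)..t, ‖nb h m (G (l + 1)) u‖ ^ p := by
      intro t
      rw [e1]
      refine (pw hp hh t (hc1.const_smul c)).trans (le_of_eq ?_)
      simp only [Pi.smul_apply, norm_smul, hc, one_mul]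
    have hcI : Continuous fun t => ∫ u in (t - h)..t, ‖nb h m (G (l + 1)) u‖ ^ p := by
      have h2 : ∀ a b : ℝ, IntervalIntegrable (fun u => ‖nb h m (G (l + 1)) u‖ ^ p) volume a b := fun a b => hc2.intervalIntegrable a b
      have h3 : Continuous fun t => (∫ u in (0:ℝ)..t, ‖nb h m (G (l + 1)) u‖ ^ p) - ∫ u in (0:ℝ)..(t - h), ‖nb h m (G (l + 1)) u‖ ^ p :=
        (intervalIntegral.continuous_primitive h2 0).sub ((intervalIntegral.continuous_primitive h2 0).comp (continuous_id.sub continuous_const))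
      refine h3.congr fun t => ?_
      exact intervalIntegral.integral_interval_sub_left (h2 _ _) (h2 _ _)
    calc ∫ t in Set.Icc a b, ‖nb h (m + 1) (G l) t‖ ^ p ≤ ∫ t in Set.Icc a b, h ^ (p - 1) * ∫ u in (t - h)..t, ‖nb h m (G (l + 1)) u‖ ^ p := by
          refine integral_mono ?_ ?_ h1
          · exact (((nb_cont h (hGc _) (m + 1)).norm.rpow_const fun _ => Or.inr hp0.le).continuousOn.integrableOn_compact isCompact_Icc)
          · exact ((continuous_const.mul hcI).continuousOn.integrableOn_compact isCompact_Icc)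
      _ = h ^ (p - 1) * ∫ t in Set.Icc a b, ∫ u in (t - h)..t, ‖nb h m (G (l + 1)) u‖ ^ p := integral_const_mul _ _
      _ ≤ h ^ (p - 1) * (h * ∫ u in Set.Icc (a - h) b, ‖nb h m (G (l + 1)) u‖ ^ p) :=
          mul_le_mul_of_nonneg_left (dbl hc2 (fun t => by positivity) hh a b) (by positivity)
      _ ≤ h ^ (p - 1) * (h * (h ^ (p * m) * ∫ t in Set.Icc (a - h - m * h) b, ‖G (l + 1 + m) t‖ ^ p)) :=
          mul_le_mul_of_nonneg_left (mul_le_mul_of_nonneg_left (ih _ _ _) hh.le) (by positivity)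
      _ = h ^ (p * (m + 1 : ℕ)) * ∫ t in Set.Icc (a - (m + 1 : ℕ) * h) b, ‖G (l + (m + 1)) t‖ ^ p := by
          have e2 : a - h - m * h = a - (m + 1 : ℕ) * h := by push_cast; ring
          have e3 : l + 1 + m = l + (m + 1) := by ring
          have e4 : h ^ (p * (m + 1 : ℕ)) = h ^ (p - 1) * h * h ^ (p * m) := by
            nth_rewrite 3 [← Real.rpow_one h]
            rw [← Real.rpow_add hh, ← Real.rpow_add hh]
            congr 1
            push_cast
            ring
          rw [e2, e3, e4]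
          ring

/-- differences and derivatives: the limit -/
theorem cv {c : ℂ} (hc : ‖c‖ = 1) {G : ℕ → ℝ → E} (hG : ∀ l t, HasDerivAt (G l) (c • G (l + 1) t) t) (m : ℕ) :
    ∀ l a b, ∃ C : ℝ, 0 ≤ C ∧ ∀ h, 0 < h → h ≤ 1 → ∀ x ∈ Set.Icc a b, ‖nb h m (G l) x - ((h : ℂ) ^ m * c ^ m) • G (l + m) x‖ ≤ C * h ^ (m + 1) := by
  have hGc : ∀ l, Continuous (G l) := fun l => continuous_iff_continuousAt.mpr fun t => (hG l t).continuousAt
  induction m with
  | zero =>
    intro l a b
    refine ⟨0, le_rfl, fun h _ _ x _ => ?_⟩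
    simp [nb]
  | succ m ih =>
    intro l a b
    obtain ⟨C, hC0, hC⟩ := ih (l + 1) (a - 1) b
    obtain ⟨B, hB⟩ := isCompact_Icc.exists_bound_of_continuousOn (s := Set.Icc (a - 1) b) (hGc (l + m + 2)).continuousOn
    refine ⟨C + |B|, by positivity, fun h hh hh1 x hx => ?_⟩
    have hsub : Set.Icc (x - h) x ⊆ Set.Icc (a - 1) b := Set.Icc_subset_Icc (by linarith [hx.1]) hx.2
    -- Lipschitz
    have hL : ∀ u ∈ Set.Icc (x - h) x, ‖G (l + m + 1) u - G (l + m + 1) x‖ ≤ |B| * h := by
      intro u hu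
      have h1 := (convex_Icc (x - h) x).norm_image_sub_le_of_norm_hasDerivWithin_le (f := G (l + m + 1)) (f' := fun t => c • G (l + m + 2) t) (C := |B|)
        (fun t _ => (hG _ t).hasDerivWithinAt) (fun t ht => by
          rw [norm_smul, hc, one_mul]
          exact (hB t (hsub ht)).trans (le_abs_self B)) (Set.right_mem_Icc.mpr (by linarith)) hu
      refine h1.trans (mul_le_mul_of_nonneg_left ?_ (abs_nonneg _))
      rw [Real.norm_eq_abs, abs_le]
      constructor <;> linarith [hu.1, hu.2]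
    have h2 := (convex_Icc (x - h) x).norm_image_sub_le_of_norm_hasDerivWithin_le
      (f := fun u => nb h m (G l) u - ((u : ℂ) * ((h : ℂ) ^ m * c ^ (m + 1))) • G (l + m + 1) x)
      (f' := fun u => c • nb h m (G (l + 1)) u - ((1 : ℂ) * ((h : ℂ) ^ m * c ^ (m + 1))) • G (l + m + 1) x) (C := (C + |B|) * h ^ (m + 1))
      (fun u _ => by
        have h3 := nb_deriv h hG m l u
        have h4 : HasDerivAt (fun u : ℝ => ((u : ℂ) * ((h : ℂ) ^ m * c ^ (m + 1)))) ((1 : ℂ) * ((h : ℂ) ^ m * c ^ (m + 1))) u :=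
          (Complex.ofRealCLM.hasDerivAt (x := u)).mul_const _
        have h5 : HasDerivAt (fun u : ℝ => ((u : ℂ) * ((h : ℂ) ^ m * c ^ (m + 1))) • G (l + m + 1) x)
            (((1 : ℂ) * ((h : ℂ) ^ m * c ^ (m + 1))) • G (l + m + 1) x) u := by
          have := h4.smul_const (G (l + m + 1) x)
          exact this
        exact (h3.sub h5).hasDerivWithinAt)
      (fun u hu => by
        have h6 := hC h hh hh1 u (hsub hu)
        have e1 : c • nb h m (G (l + 1)) u - ((1 : ℂ) * ((h : ℂ) ^ m * c ^ (m + 1))) • G (l + m + 1) x =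
            c • (nb h m (G (l + 1)) u - ((h : ℂ) ^ m * c ^ m) • G (l + 1 + m) u) +
              ((h : ℂ) ^ m * c ^ (m + 1)) • (G (l + m + 1) u - G (l + m + 1) x) := by
          have e2 : l + 1 + m = l + m + 1 := by ring
          rw [e2, smul_sub, smul_sub, smul_smul, one_mul, pow_succ]
          have e3 : c * ((h : ℂ) ^ m * c ^ m) = (h : ℂ) ^ m * (c ^ m * c) := by ring
          rw [e3]
          abel
        rw [e1]
        refine (norm_add_le _ _).trans ?_
        rw [norm_smul, norm_smul, hc, one_mul, norm_mul, norm_pow, norm_pow, hc, one_pow, mul_one, Complex.norm_real, Real.norm_of_nonneg hh.le, add_mul]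
        refine add_le_add h6 ?_
        calc h ^ m * ‖G (l + m + 1) u - G (l + m + 1) x‖ ≤ h ^ m * (|B| * h) := mul_le_mul_of_nonneg_left (hL u hu) (by positivity)
          _ = |B| * h ^ (m + 1) := by ring)
      (Set.left_mem_Icc.mpr (by linarith)) (Set.right_mem_Icc.mpr (by linarith))
    have e4 : (nb h m (G l) x - ((x : ℂ) * ((h : ℂ) ^ m * c ^ (m + 1))) • G (l + m + 1) x) -
        (nb h m (G l) (x - h) - (((x - h : ℝ) : ℂ) * ((h : ℂ) ^ m * c ^ (m + 1))) • G (l + m + 1) x) =
        nb h (m + 1) (G l) x - ((h : ℂ) ^ (m + 1) * c ^ (m + 1)) • G (l + (m + 1)) x := by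
      rw [nb_succ, ← add_assoc]
      have e5 : ((x : ℂ) * ((h : ℂ) ^ m * c ^ (m + 1))) = (((x - h : ℝ) : ℂ) * ((h : ℂ) ^ m * c ^ (m + 1))) + (h : ℂ) ^ (m + 1) * c ^ (m + 1) := by
        push_cast
        ring
      rw [e5, add_smul]
      abel
    rw [e4] at h2
    refine h2.trans (le_of_eq ?_)
    rw [sub_sub_cancel, Real.norm_of_nonneg hh.le]
    ring

end Pool.Agent.X111.DL
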