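import Pool.Agent.X111.DL.Fd
import Pool.Agent.X111.HO.Low
import Pool.Agent.X111.FL.Jet

set_option autoImplicit false
set_option linter.unusedSectionVars false

/-! Differences of the limit field, and differences of zeta, as discrete measures. -/

namespace Pool.Agent.X111.DL

open MeasureTheory ProbabilityTheory Filter Topology
open Pool.Agent.Y755
open Pool.Agent.Y753.NL
open Pool.Agent.Y753.SHR
open Pool.Agent.H306R2 (aF aF_pos)
open Pool.Agent.X111.JD (zc zc_norm zc_cont)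
open Pool.Agent.X111.FL
open Pool.Agent.X111.HO

section

variable {E : Type*} [NormedAddCommGroup E] [NormedSpace ℂ E] [CompleteSpace E]

lemma nb_affine (b c : ℝ) (h : ℝ) (Ψ : ℝ → E) (m : ℕ) : ∀ a : ℝ, nb h m (fun x => Ψ (b + x * c)) a = nb (h * c) m Ψ (b + a * c) := by
  induction m with
  | zero => intro a; rfl
  | succ m ih =>
    intro a
    rw [nb_succ, nb_succ, ih, ih]
    congr 2
    ring

lemma nb_pi {n : ℕ} (h : ℝ) (m : ℕ) : ∀ (Φ : ℝ → Fin n → ℂ) (t : ℝ) (i : Fin n), nb h m Φ t i = nb h m (fun t => Φ t i) t := by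
  induction m with
  | zero => intro Φ t i; rfl
  | succ m ih =>
    intro Φ t i
    rw [nb_succ, nb_succ, Pi.sub_apply, ih, ih]

lemma nb_bd {h : ℝ} (hh : 0 < h) {c : ℂ} (hc : ‖c‖ = 1) {G : ℕ → ℝ → E} (hG : ∀ l t, HasDerivAt (G l) (c • G (l + 1) t) t) (m : ℕ) :
    ∀ l x B, (∀ u ∈ Set.Icc (x - m * h) x, ‖G (l + m) u‖ ≤ B) → ‖nb h m (G l) x‖ ≤ h ^ m * B := by
  induction m with
  | zero =>
    intro l x B hB
    have := hB x (by simp)
    simpa [nb] using this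
  | succ m ih =>
    intro l x B hB
    have h1 := (convex_Icc (x - h) x).norm_image_sub_le_of_norm_hasDerivWithin_le (f := nb h m (G l)) (f' := fun t => c • nb h m (G (l + 1)) t) (C := h ^ m * B)
      (fun t _ => (nb_deriv h hG m l t).hasDerivWithinAt) (fun t ht => by
        rw [norm_smul, hc, one_mul]
        refine ih (l + 1) t B fun u hu => ?_
        have e1 : l + 1 + m = l + (m + 1) := by ring
        rw [e1]
        refine hB u ⟨?_, hu.2.trans ht.2⟩
        push_cast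
        linarith [hu.1, ht.1]) (Set.left_mem_Icc.mpr (by linarith)) (Set.right_mem_Icc.mpr (by linarith))
    rw [nb_succ]
    refine h1.trans (le_of_eq ?_)
    rw [sub_sub_cancel, Real.norm_of_nonneg hh.le]
    ring

end

/-- the discrete measure of the backward difference -/
noncomputable def bm (h : ℝ) : ℕ → ℝ → (ℝ →₀ ℂ)
  | 0, a => Finsupp.single a 1
  | m + 1, a => bm h m a + (-1 : ℂ) • bm h m (a - h)

lemma dm_bm (h : ℝ) (f : ℂ → ℂ) (m : ℕ) : ∀ a, dm (bm h m a) f = nb h m (fun x : ℝ => f (Complex.I * x)) a := by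
  induction m with
  | zero =>
    intro a
    unfold dm bm nb
    rw [Finsupp.sum_single_index (by simp), one_mul]
  | succ m ih =>
    intro a
    rw [nb_succ]
    unfold bm
    rw [dm_add, dm_smul, ih, ih]
    ring

/-- zeta on the line, as a function of the height -/
noncomputable def ps0 (δ : ℝ) (u : ℝ) : ℂ := riemannZeta (1 / 2 + δ + (u : ℂ) * Complex.I)

lemma dm_bm_jf (h δ t a : ℝ) (m : ℕ) : dm (bm h m a) (jf δ t) = nb (h * δ) m (ps0 δ) (t + a * δ) := by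
  rw [dm_bm]
  have e1 : (fun x : ℝ => jf δ t (Complex.I * x)) = fun x : ℝ => ps0 δ (t + x * δ) := by
    funext x
    rw [jf_line]
    unfold zc ps0
    congr 1
  rw [e1, nb_affine]

/-- the jets of the limit field on the line -/
noncomputable def Gf {n : ℕ} (k : ℝ) (ω : ℕ → ℝ × ℝ) (a : Fin n → ℝ) (l : ℕ) (x : ℝ) : Fin n → ℂ :=
  fun i => iteratedDeriv l (fi k ω) (Complex.I * ((x + a i : ℝ) : ℂ))

lemma fi_hasDeriv (k : ℝ) {ω : ℕ → ℝ × ℝ} (hω : Gd ω) (l : ℕ) (x : ℝ) :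
    HasDerivAt (iteratedDeriv l (fi k ω)) (iteratedDeriv (l + 1) (fi k ω) (Complex.I * x)) (Complex.I * x) := by
  have h1 := an_D1 ((fi_diff k hω (H := |x|)).mono (D1_D2 |x|)) l (Complex.I * x) ⟨by simp, by simp⟩
  have h2 := h1.differentiableAt.hasDerivAt
  rwa [← iteratedDeriv_succ] at h2

lemma Gf_deriv {n : ℕ} (k : ℝ) {ω : ℕ → ℝ × ℝ} (hω : Gd ω) (a : Fin n → ℝ) (l : ℕ) (x : ℝ) :
    HasDerivAt (Gf k ω a l) (Complex.I • Gf k ω a (l + 1) x) x := by
  rw [hasDerivAt_pi]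
  intro i
  have h1 := fi_hasDeriv k hω l (x + a i)
  have h2 : HasDerivAt (fun y : ℝ => Complex.I * ((y + a i : ℝ) : ℂ)) Complex.I x := by
    have h3 : HasDerivAt (fun y : ℝ => ((y + a i : ℝ) : ℂ)) 1 x := by
      have h4 := ((hasDerivAt_id x).add_const (a i)).ofReal_comp
      exact h4.congr_deriv (by simp)
    exact (h3.const_mul Complex.I).congr_deriv (by simp)
  exact (h1.comp x h2).congr_deriv (by
    rw [Pi.smul_apply, smul_eq_mul]
    unfold Gf
    ring)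

lemma nb_Gf {n : ℕ} (k h : ℝ) (ω : ℕ → ℝ × ℝ) (a : Fin n → ℝ) (m : ℕ) (i : Fin n) : nb h m (Gf k ω a 0) 0 i = dm (bm h m (a i)) (fi k ω) := by
  rw [nb_pi, dm_bm]
  have h1 := nb_affine (a i) 1 h (fun x : ℝ => fi k ω (Complex.I * x)) m 0
  simp only [mul_one, add_zero] at h1
  rw [← h1]
  congr 1
  funext x
  unfold Gf
  rw [iteratedDeriv_zero]
  congr 2
  push_cast
  ring

/-- bounds for the jets of the limit field -/
lemma fi_jet_bd {k : ℝ} (hk : 0 < k) {H : ℝ} (hH : 0 ≤ H) : ∃ r : ℝ, 0 ≤ r ∧ r < 1 ∧ ∀ (l : ℕ) (ω : ℕ → ℝ × ℝ), Gd ω → ∀ x : ℝ, |x| ≤ H →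
    ‖iteratedDeriv l (fi k ω) (Complex.I * x)‖ ≤ (l.factorial * 4 ^ l) * ((5 / 8) ^ (-k) * Real.exp (mj r ω)) := by
  obtain ⟨r, hr0, hr1, hr⟩ := D2_rad hH
  refine ⟨r, hr0, hr1, fun l ω hω x hx => ?_⟩
  have hin : Metric.closedBall (Complex.I * (x : ℂ)) (1 / 4) ⊆ D1 H := by
    intro z hz
    rw [Metric.mem_closedBall, dist_eq_norm] at hz
    have h1 := Complex.abs_re_le_norm (z - Complex.I * x)
    have h2 := Complex.abs_im_le_norm (z - Complex.I * x)
    simp at h1 h2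
    refine ⟨by linarith, ?_⟩
    calc |z.im| = |(z.im - x) + x| := by ring_nf
      _ ≤ |z.im - x| + |x| := abs_add_le _ _
      _ < H + 1 := by linarith
  have h2 := Complex.norm_iteratedDeriv_le_of_forall_mem_sphere_norm_le (n := l) (R := 1 / 4) (C := (5 / 8) ^ (-k) * Real.exp (mj r ω)) (by norm_num)
    (((fi_diff k hω (H := H)).mono (D1_D2 H)).diffContOnCl_ball hin)
    (fun y hy => fi_norm hk hω hr0 hr1 hr (D1_D2 H (hin (Metric.sphere_subset_closedBall hy))))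
  refine h2.trans (le_of_eq ?_)
  have e1 : (1 / 4 : ℝ) ^ l = (4 ^ l)⁻¹ := by rw [one_div, inv_pow]
  rw [e1, div_inv_eq_mul]
  ring

/-- homogeneous functions of discrete measures, as functions of finitely many values -/
lemma dm_fin {k : ℝ} {m : ℕ} (μ : Fin m → (ℝ →₀ ℂ)) {F : (Fin m → ℂ) → ℝ} (hF : Continuous F)
    (hom : ∀ (c : ℂ) (v : Fin m → ℂ), F (fun j => c * v j) = ‖c‖ ^ (2 * k) * F v) :
    ∃ (n : ℕ) (a : Fin n → ℝ) (F' : (Fin n → ℂ) → ℝ), Continuous F' ∧ (∀ (c : ℂ) (v : Fin n → ℂ), F' (fun j => c * v j) = ‖c‖ ^ (2 * k) * F' v) ∧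
      ∀ f : ℂ → ℂ, F' (fun j => f (Complex.I * a j)) = F (fun i => dm (μ i) f) := by
  classical
  obtain ⟨s, hs⟩ : ∃ s : Finset ℝ, s = Finset.univ.biUnion fun i => (μ i).support := ⟨_, rfl⟩
  have hsub : ∀ i, (μ i).support ⊆ s := fun i => by rw [hs]; exact Finset.subset_biUnion_of_mem (fun i => (μ i).support) (Finset.mem_univ i)
  refine ⟨s.card, fun j => (s.equivFin.symm j : ℝ), fun v => F (fun i => ∑ j, μ i (s.equivFin.symm j : ℝ) * v j), ?_, ?_, ?_⟩
  · exact hF.comp (continuous_pi fun i => continuous_finsetSum _ fun j _ => continuous_const.mul (continuous_apply j))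
  · intro c v
    show F (fun i => ∑ j, μ i (s.equivFin.symm j : ℝ) * (c * v j)) = ‖c‖ ^ (2 * k) * F (fun i => ∑ j, μ i (s.equivFin.symm j : ℝ) * v j)
    rw [← hom]
    congr 1
    funext i
    rw [Finset.mul_sum]
    exact Finset.sum_congr rfl fun j _ => by ring
  · intro f
    have hd : ∀ i, ∑ j, μ i (s.equivFin.symm j : ℝ) * f (Complex.I * ((s.equivFin.symm j : ℝ) : ℂ)) = dm (μ i) f := by
      intro i
      rw [s.equivFin.symm.sum_comp (fun x : s => μ i (x : ℝ) * f (Complex.I * ((x : ℝ) : ℂ))), Finset.sum_coe_sort s (fun x => μ i x * f (Complex.I * (x : ℂ)))]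
      unfold dm
      exact (Finsupp.sum_of_support_subset (μ i) (hsub i) (fun (x : ℝ) (c : ℂ) => c * f (Complex.I * x)) fun x _ => zero_mul _).symm
    simp_rw [hd]

/-- the limit of the differences of the limit field -/
theorem Gf_lim {k : ℝ} (hk : 0 < k) {n : ℕ} (a : Fin n → ℝ) (m : ℕ) :
    Integrable (fun ω => ‖Gf k ω a m 0‖ ^ (2 * k)) PG ∧
    Tendsto (fun j : ℕ => ∫ ω, (((1 : ℝ) / (j + 1)) ^ (-(2 * k * m)) * ‖fun i => dm (bm (1 / (j + 1)) m (a i)) (fi k ω)‖ ^ (2 * k)) ∂PG) atTop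
      (𝓝 (∫ ω, ‖Gf k ω a m 0‖ ^ (2 * k) ∂PG)) := by
  obtain ⟨A, hA⟩ : ∃ A : ℝ, A = ∑ i, |a i| := ⟨_, rfl⟩
  have hAi : ∀ i, |a i| ≤ A := fun i => by rw [hA]; exact Finset.single_le_sum (f := fun i => |a i|) (fun i _ => abs_nonneg _) (Finset.mem_univ i)
  have hA0 : 0 ≤ A := by rw [hA]; positivity
  obtain ⟨r, hr0, hr1, hb⟩ := fi_jet_bd hk (H := m + A) (by positivity)
  obtain ⟨Q, hQ⟩ : ∃ Q : ℝ, Q = (m.factorial * 4 ^ m) * (5 / 8) ^ (-k) := ⟨_, rfl⟩
  have hQ0 : 0 ≤ Q := by rw [hQ]; positivity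
  obtain ⟨g, hg⟩ : ∃ g : (ℕ → ℝ × ℝ) → ℝ, g = fun ω => (Q * Real.exp (mj r ω)) ^ (2 * k) := ⟨_, rfl⟩
  have hgi : Integrable g PG := by
    refine ((mj_exp hr0 hr1 (2 * k)).const_mul (Q ^ (2 * k))).congr (Eventually.of_forall fun ω => ?_)
    rw [hg]
    simp only
    rw [Real.mul_rpow hQ0 (Real.exp_pos _).le, ← Real.exp_mul]
    congr 2
    ring
  have hGb : ∀ ω, Gd ω → ∀ u : ℝ, |u| ≤ m → ‖Gf k ω a m u‖ ≤ Q * Real.exp (mj r ω) := by
    intro ω hω u hu
    rw [pi_norm_le_iff_of_nonneg (by positivity)]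
    intro i
    have h1 := hb m ω hω (u + a i) ((abs_add_le _ _).trans (add_le_add hu (hAi i)))
    refine h1.trans (le_of_eq ?_)
    rw [hQ]
    ring
  -- measurability
  have hme : ∀ j : ℕ, AEStronglyMeasurable (fun ω => ((1 : ℝ) / (j + 1)) ^ (-(2 * k * m)) * ‖fun i => dm (bm (1 / (j + 1)) m (a i)) (fi k ω)‖ ^ (2 * k)) PG := by
    intro j
    obtain ⟨N, b, F', hF'c, hF'h, hF'⟩ := dm_fin (k := k) (fun i => bm (1 / ((j : ℝ) + 1)) m (a i)) (F := fun v => ‖v‖ ^ (2 * k))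
      (continuous_norm.rpow_const fun _ => Or.inr (by positivity)) (fun c v => by
        have e1 : (fun j => c * v j) = c • v := rfl
        rw [e1, norm_smul, Real.mul_rpow (norm_nonneg _) (norm_nonneg _)])
    obtain ⟨C, hC0, hC⟩ := hom_bd hk hF'c hF'h
    obtain ⟨g, -, -, hg⟩ := lim_int hk b hF'c hC0 hC
    refine (hg.const_mul (((1 : ℝ) / (j + 1)) ^ (-(2 * k * m)))).congr (Eventually.of_forall fun ω => ?_)
    show ((1 : ℝ) / (j + 1)) ^ (-(2 * k * m)) * F' (fun j => Complex.exp (lgv k b ω j)) =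
      ((1 : ℝ) / (j + 1)) ^ (-(2 * k * m)) * ‖fun i => dm (bm (1 / (j + 1)) m (a i)) (fi k ω)‖ ^ (2 * k)
    rw [← hF']
    simp_rw [fi_line]
  have hpt : ∀ ω, Gd ω → Tendsto (fun j : ℕ => ((1 : ℝ) / (j + 1)) ^ (-(2 * k * m)) * ‖fun i => dm (bm (1 / (j + 1)) m (a i)) (fi k ω)‖ ^ (2 * k)) atTop
      (𝓝 (‖Gf k ω a m 0‖ ^ (2 * k))) := by
    intro ω hω
    obtain ⟨C, hC0, hC⟩ := cv Complex.norm_I (Gf_deriv k hω a) m 0 0 0
    have h1 : Tendsto (fun j : ℕ => ((1 : ℝ) / (j + 1)) ^ (-(m : ℝ)) * ‖fun i => dm (bm (1 / (j + 1)) m (a i)) (fi k ω)‖) atTop (𝓝 ‖Gf k ω a m 0‖) := by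
      rw [tendsto_iff_norm_sub_tendsto_zero]
      have h2 : Tendsto (fun j : ℕ => C * ((1 : ℝ) / (j + 1))) atTop (𝓝 0) := by
        have := (tendsto_one_div_add_atTop_nhds_zero_nat (𝕜 := ℝ)).const_mul C
        rwa [mul_zero] at this
      refine squeeze_zero (fun _ => norm_nonneg _) (fun j => ?_) h2
      obtain ⟨h, hh⟩ : ∃ h : ℝ, h = 1 / ((j : ℝ) + 1) := ⟨_, rfl⟩
      have hh0 : 0 < h := by rw [hh]; positivity
      have hh1 : h ≤ 1 := by
        rw [hh, div_le_one (by positivity)]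
        linarith [(Nat.cast_nonneg j : (0:ℝ) ≤ j)]
      rw [← hh]
      have h3 := hC h hh0 hh1 0 (by simp)
      have e1 : (fun i => dm (bm h m (a i)) (fi k ω)) = nb h m (Gf k ω a 0) 0 := by
        funext i
        rw [nb_Gf]
      rw [e1, Real.norm_eq_abs]
      have e2 : ‖Gf k ω a m 0‖ = h ^ (-(m : ℝ)) * ‖((h : ℂ) ^ m * Complex.I ^ m) • Gf k ω a (0 + m) 0‖ := by
        rw [norm_smul, norm_mul, norm_pow, norm_pow, Complex.norm_I, one_pow, mul_one, Complex.norm_real, Real.norm_of_nonneg hh0.le, ← Real.rpow_natCast h m,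
          ← mul_assoc, ← Real.rpow_add hh0, neg_add_cancel, Real.rpow_zero, one_mul, zero_add]
      rw [e2, ← mul_sub, abs_mul, abs_of_nonneg (Real.rpow_nonneg hh0.le _)]
      calc h ^ (-(m : ℝ)) * |‖nb h m (Gf k ω a 0) 0‖ - ‖((h : ℂ) ^ m * Complex.I ^ m) • Gf k ω a (0 + m) 0‖|
          ≤ h ^ (-(m : ℝ)) * (C * h ^ (m + 1)) := mul_le_mul_of_nonneg_left ((abs_norm_sub_norm_le _ _).trans h3) (Real.rpow_nonneg hh0.le _)
        _ = C * h := by
            rw [pow_succ, ← Real.rpow_natCast h m]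
            have : h ^ (-(m : ℝ)) * h ^ (m : ℝ) = 1 := by rw [← Real.rpow_add hh0, neg_add_cancel, Real.rpow_zero]
            calc h ^ (-(m : ℝ)) * (C * (h ^ (m : ℝ) * h)) = C * h * (h ^ (-(m : ℝ)) * h ^ (m : ℝ)) := by ring
              _ = C * h := by rw [this, mul_one]
    have h4 := h1.rpow_const (p := 2 * k) (Or.inr (by positivity))
    refine h4.congr fun j => ?_
    rw [Real.mul_rpow (by positivity) (norm_nonneg _), ← Real.rpow_mul (by positivity)]
    congr 2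
    ring
  have hlm : AEStronglyMeasurable (fun ω => ‖Gf k ω a m 0‖ ^ (2 * k)) PG := by
    refine aestronglyMeasurable_of_tendsto_ae atTop hme ?_
    filter_upwards [Gd_ae] with ω hω
    exact hpt ω hω
  refine ⟨hgi.mono hlm ?_, ?_⟩
  · filter_upwards [Gd_ae] with ω hω
    rw [hg, Real.norm_of_nonneg (by positivity), Real.norm_of_nonneg (by positivity)]
    exact Real.rpow_le_rpow (norm_nonneg _) (hGb ω hω 0 (by simp)) (by positivity)
  · refine tendsto_integral_of_dominated_convergence g hme hgi (fun j => ?_) ?_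
    · filter_upwards [Gd_ae] with ω hω
      obtain ⟨h, hh⟩ : ∃ h : ℝ, h = 1 / ((j : ℝ) + 1) := ⟨_, rfl⟩
      have hh0 : 0 < h := by rw [hh]; positivity
      have hh1 : h ≤ 1 := by
        rw [hh, div_le_one (by positivity)]
        linarith [(Nat.cast_nonneg j : (0:ℝ) ≤ j)]
      rw [← hh]
      have e1 : (fun i => dm (bm h m (a i)) (fi k ω)) = nb h m (Gf k ω a 0) 0 := by
        funext i
        rw [nb_Gf]
      have h5 := nb_bd hh0 Complex.norm_I (Gf_deriv k hω a) m 0 0 (Q * Real.exp (mj r ω)) (fun u hu => by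
        rw [zero_add]
        refine hGb ω hω u ?_
        rw [abs_le]
        have h6 : (m : ℝ) * h ≤ m := by nlinarith [(Nat.cast_nonneg m : (0:ℝ) ≤ m)]
        constructor <;> linarith [hu.1, hu.2, (Nat.cast_nonneg m : (0:ℝ) ≤ m)])
      rw [e1, Real.norm_of_nonneg (by positivity), hg]
      simp only
      have e3 : h ^ (-(2 * k * m)) = (h ^ (-(m : ℝ))) ^ (2 * k) := by
        rw [← Real.rpow_mul hh0.le]
        congr 1
        ring
      rw [e3, ← Real.mul_rpow (Real.rpow_nonneg hh0.le _) (norm_nonneg _)]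
      refine Real.rpow_le_rpow (by positivity) ?_ (by positivity)
      calc h ^ (-(m : ℝ)) * ‖nb h m (Gf k ω a 0) 0‖ ≤ h ^ (-(m : ℝ)) * (h ^ m * (Q * Real.exp (mj r ω))) :=
            mul_le_mul_of_nonneg_left h5 (Real.rpow_nonneg hh0.le _)
        _ = Q * Real.exp (mj r ω) := by
            rw [← Real.rpow_natCast h m, ← mul_assoc, ← Real.rpow_add hh0, neg_add_cancel, Real.rpow_zero, one_mul]
    · filter_upwards [Gd_ae] with ω hω
      exact hpt ω hω

end Pool.Agent.X111.DL
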