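import Pool.Agent.X111.DL.Lim

set_option autoImplicit false
set_option linter.unusedSectionVars false

/-! Lower bounds for the moments of the derivatives of zeta near the critical line. -/

namespace Pool.Agent.X111.DL

open MeasureTheory ProbabilityTheory Filter Topology
open Pool.Agent.Y755
open Pool.Agent.Y753.NL
open Pool.Agent.Y753.SHR
open Pool.Agent.H306R2 (aF aF_pos)
open Pool.Agent.X111.JD (zc zc_norm zc_cont)
open Pool.Agent.X111.FL
open Pool.Agent.X111.HO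

/-- the jets of zeta, as functions of the height -/
noncomputable def Gz {n : ℕ} (δ : ℝ) (a : Fin n → ℝ) (l : ℕ) (t : ℝ) : Fin n → ℂ :=
  fun i => iteratedDeriv l riemannZeta (1 / 2 + δ + ((t + a i * δ : ℝ) : ℂ) * Complex.I)

lemma zeta_an (l : ℕ) : AnalyticOnNhd ℂ (iteratedDeriv l riemannZeta) {1}ᶜ := by
  have h0 : DifferentiableOn ℂ riemannZeta {1}ᶜ := fun z hz => (differentiableAt_riemannZeta hz).differentiableWithinAt
  rw [iteratedDeriv_eq_iterate]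
  exact (h0.analyticOnNhd isOpen_compl_singleton).iterated_deriv l

lemma zeta_hasDeriv (l : ℕ) {s : ℂ} (hs : s ≠ 1) : HasDerivAt (iteratedDeriv l riemannZeta) (iteratedDeriv (l + 1) riemannZeta s) s := by
  have h2 := ((zeta_an l) s hs).differentiableAt.hasDerivAt
  rwa [← iteratedDeriv_succ] at h2

lemma pt_ne {δ : ℝ} (hδ : δ < 1 / 2) (u : ℝ) : (1 / 2 + δ + (u : ℂ) * Complex.I : ℂ) ≠ 1 := by
  intro h
  have h1 := congrArg Complex.re h
  simp at h1
  linarith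

lemma Gz_deriv {n : ℕ} {δ : ℝ} (hδ : δ < 1 / 2) (a : Fin n → ℝ) (l : ℕ) (t : ℝ) :
    HasDerivAt (Gz δ a l) (Complex.I • Gz δ a (l + 1) t) t := by
  rw [hasDerivAt_pi]
  intro i
  have h1 := zeta_hasDeriv l (pt_ne hδ (t + a i * δ))
  have h2 : HasDerivAt (fun y : ℝ => (1 / 2 + δ + ((y + a i * δ : ℝ) : ℂ) * Complex.I : ℂ)) Complex.I t := by
    have h3 : HasDerivAt (fun y : ℝ => ((y + a i * δ : ℝ) : ℂ)) 1 t := by
      have h4 := ((hasDerivAt_id t).add_const (a i * δ)).ofReal_comp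
      exact h4.congr_deriv (by simp)
    exact ((h3.mul_const Complex.I).const_add _).congr_deriv (by simp)
  exact (h1.comp t h2).congr_deriv (by
    rw [Pi.smul_apply, smul_eq_mul]
    unfold Gz
    ring)

lemma Gz_cont {n : ℕ} {δ : ℝ} (hδ : δ < 1 / 2) (a : Fin n → ℝ) (l : ℕ) : Continuous (Gz δ a l) :=
  continuous_iff_continuousAt.mpr fun t => (Gz_deriv hδ a l t).continuousAt

lemma nb_Gz {n : ℕ} (h δ : ℝ) (a : Fin n → ℝ) (m : ℕ) (t : ℝ) (i : Fin n) : nb (h * δ) m (Gz δ a 0) t i = dm (bm h m (a i)) (jf δ t) := by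
  rw [nb_pi, dm_bm_jf]
  have h1 := nb_affine (a i * δ) 1 (h * δ) (ps0 δ) m t
  simp only [mul_one] at h1
  rw [add_comm t, ← h1]
  congr 1
  funext x
  unfold Gz ps0
  rw [iteratedDeriv_zero, add_comm x]

lemma Gz_bd {n : ℕ} (a : Fin n → ℝ) (l : ℕ) (M : ℝ) : ∃ B : ℝ, 0 ≤ B ∧ ∀ δ : ℝ, 0 < δ → δ < 1 / 4 → ∀ t ∈ Set.Icc (-M) 0, ‖Gz δ a l t‖ ≤ B := by
  obtain ⟨A, hA⟩ : ∃ A : ℝ, A = ∑ i, |a i| := ⟨_, rfl⟩
  have hAi : ∀ i, |a i| ≤ A := fun i => by rw [hA]; exact Finset.single_le_sum (f := fun i => |a i|) (fun i _ => abs_nonneg _) (Finset.mem_univ i)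
  have hA0 : 0 ≤ A := by rw [hA]; positivity
  have hK : IsCompact (Set.Icc (1 / 2 : ℝ) (3 / 4) ×ℂ Set.Icc (-(M + A)) A) := isCompact_Icc.reProdIm isCompact_Icc
  obtain ⟨B, hB⟩ := hK.exists_bound_of_continuousOn (f := iteratedDeriv l riemannZeta) (fun s hs => by
    refine ((zeta_an l) s ?_).continuousAt.continuousWithinAt
    intro h
    rw [Set.mem_singleton_iff] at h
    rw [h, Complex.mem_reProdIm] at hs
    have := hs.1.2
    norm_num at this)
  refine ⟨|B|, abs_nonneg _, fun δ h0 h1 t ht => ?_⟩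
  rw [pi_norm_le_iff_of_nonneg (abs_nonneg _)]
  intro i
  refine (hB _ ?_).trans (le_abs_self B)
  rw [Complex.mem_reProdIm]
  have h3 := hAi i
  have h4 : |a i * δ| ≤ A := by
    rw [abs_mul, abs_of_pos h0]
    nlinarith [abs_nonneg (a i)]
  have h5 := abs_le.mp h4
  constructor
  · simp
    constructor <;> linarith
  · simp
    constructor <;> linarith [ht.1, ht.2]

/-- the lower bound for finitely many shifts -/
theorem low_fin {k : ℝ} (hk : 1 / 2 ≤ k) {δ : ℝ → ℝ} (hδ : Tendsto δ atTop (𝓝 0)) (hδL : Tendsto (fun T => δ T * Real.log T) atTop atTop)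
    {n : ℕ} (a : Fin n → ℝ) (m : ℕ) {g : ℝ → ℝ → ℝ} (hg : ∀ᶠ T in atTop, IntegrableOn (g T) (Set.Icc 0 T))
    (hle : ∀ᶠ T in atTop, ∀ t, ‖((δ T : ℂ) ^ m) • Gz (δ T) a m t‖ ^ (2 * k) ≤ g T t) {ε : ℝ} (hε : 0 < ε) :
    ∀ᶠ T in atTop, aF k * ∫ ω, ‖Gf k ω a m 0‖ ^ (2 * k) ∂PG - ε ≤ (2 * δ T) ^ (k ^ 2) / T * ∫ t in Set.Icc 0 T, g T t := by
  have hk0 : 0 < k := by linarith
  obtain ⟨-, hlim⟩ := Gf_lim hk0 a m
  have h1 := hlim.const_mul (aF k)
  obtain ⟨j, hj⟩ := (h1.eventually (lt_mem_nhds (show aF k * ∫ ω, ‖Gf k ω a m 0‖ ^ (2 * k) ∂PG - ε / 3 <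
    aF k * ∫ ω, ‖Gf k ω a m 0‖ ^ (2 * k) ∂PG by linarith))).exists
  obtain ⟨h, hh⟩ : ∃ h : ℝ, h = 1 / ((j : ℝ) + 1) := ⟨_, rfl⟩
  have hh0 : 0 < h := by rw [hh]; positivity
  have hh1 : h ≤ 1 := by
    rw [hh, div_le_one (by positivity)]
    linarith [(Nat.cast_nonneg j : (0:ℝ) ≤ j)]
  rw [← hh, integral_const_mul] at hj
  obtain ⟨N, b, F', hF'c, hF'h, hF'⟩ := dm_fin (k := k) (fun i => bm h m (a i)) (F := fun v => ‖v‖ ^ (2 * k))
    (continuous_norm.rpow_const fun _ => Or.inr (by positivity)) (fun c v => by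
      have e1 : (fun j => c * v j) = c • v := rfl
      rw [e1, norm_smul, Real.mul_rpow (norm_nonneg _) (norm_nonneg _)])
  obtain ⟨q, hq⟩ : ∃ q : ℝ, q = h ^ (2 * k * m) := ⟨_, rfl⟩
  have hq0 : 0 < q := by rw [hq]; positivity
  have hqi : h ^ (-(2 * k * m)) = q⁻¹ := by rw [hq, Real.rpow_neg hh0.le]
  rw [hqi] at hj
  have hnn : ∀ T t, 0 ≤ F' (fun j => zc (δ T) (b j) t) := by
    intro T t
    have e1 := hF' (jf (δ T) t)
    simp_rw [jf_line] at e1
    rw [e1]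
    positivity
  have h2 := lowG hk0 hδ hδL b hF'c hF'h (g := fun T t => F' (fun j => zc (δ T) (b j) t)) (by
    filter_upwards [hδ.eventually (gt_mem_nhds (show (0:ℝ) < 1 / 2 by norm_num))] with T hT
    exact (hF'c.comp (continuous_pi fun j => zc_cont hT (b j))).continuousOn.integrableOn_compact isCompact_Icc)
    (Eventually.of_forall fun T t => hnn T t) (Eventually.of_forall fun T t => le_rfl) (ε := ε / 3 * q) (by positivity)
  have e0 : ∫ ω, F' (fun j => fi k ω (Complex.I * b j)) ∂PG = ∫ ω, ‖fun i => dm (bm h m (a i)) (fi k ω)‖ ^ (2 * k) ∂PG :=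
    integral_congr_ae (Eventually.of_forall fun ω => hF' (fi k ω))
  rw [e0] at h2
  obtain ⟨B, hB0, hB⟩ := Gz_bd a m m
  have hT2 : Tendsto (fun T : ℝ => m * B ^ (2 * k) / T) atTop (𝓝 0) := tendsto_const_nhds.div_atTop tendsto_id
  filter_upwards [h2, hg, hle, pos_path hδL, hδ.eventually (gt_mem_nhds (show (0:ℝ) < 1 / 4 by norm_num)), eventually_gt_atTop 0,
    hT2.eventually (gt_mem_nhds (show 0 < ε / 3 by positivity))] with T h3 h4 h5 h6 h7 hT h8
  have hd2 : δ T < 1 / 2 := by linarith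
  have hc0 : 0 ≤ (2 * δ T) ^ (k ^ 2) / T := by positivity
  have hhd : 0 < h * δ T := by positivity
  -- the differences are small
  have h9 := fd (p := 2 * k) (by linarith) hhd Complex.norm_I (Gz_deriv hd2 a) m 0 0 T
  have e1 : ∀ t, F' (fun j => zc (δ T) (b j) t) = ‖nb (h * δ T) m (Gz (δ T) a 0) t‖ ^ (2 * k) := by
    intro t
    have e2 := hF' (jf (δ T) t)
    simp_rw [jf_line] at e2
    rw [e2]
    congr 2
    funext i
    rw [nb_Gz]
  simp_rw [e1] at h3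
  rw [zero_add, zero_sub] at h9
  have hGc : Continuous fun t => ‖Gz (δ T) a m t‖ ^ (2 * k) := (Gz_cont hd2 a m).norm.rpow_const fun _ => Or.inr (by positivity)
  -- the endpoint
  have h10 : ∫ t in Set.Icc (-(m * (h * δ T))) T, ‖Gz (δ T) a m t‖ ^ (2 * k) ≤ m * B ^ (2 * k) + ∫ t in Set.Icc 0 T, ‖Gz (δ T) a m t‖ ^ (2 * k) := by
    have hm0 : 0 ≤ (m : ℝ) * (h * δ T) := by positivity
    have hm1 : (m : ℝ) * (h * δ T) ≤ m := by
      have : h * δ T ≤ 1 := by nlinarith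
      nlinarith [(Nat.cast_nonneg m : (0:ℝ) ≤ m)]
    rw [integral_Icc_eq_integral_Ioc, integral_Icc_eq_integral_Ioc, ← intervalIntegral.integral_of_le (by linarith), ← intervalIntegral.integral_of_le hT.le,
      ← intervalIntegral.integral_add_adjacent_intervals (hGc.intervalIntegrable (-(m * (h * δ T))) 0) (hGc.intervalIntegrable 0 T)]
    refine add_le_add ?_ le_rfl
    have h11 : ∫ t in (-(m * (h * δ T)))..0, ‖Gz (δ T) a m t‖ ^ (2 * k) ≤ ∫ _t in (-(m * (h * δ T)))..0, B ^ (2 * k) := by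
      refine intervalIntegral.integral_mono_on (by linarith) (hGc.intervalIntegrable _ _) (by simp) fun t ht => ?_
      exact Real.rpow_le_rpow (norm_nonneg _) (hB (δ T) h6 h7 t ⟨by linarith [ht.1], ht.2⟩) (by positivity)
    refine h11.trans ?_
    rw [intervalIntegral.integral_const, smul_eq_mul, zero_sub, neg_neg]
    exact mul_le_mul_of_nonneg_right hm1 (by positivity)
  -- the function g
  have h12 : (δ T) ^ (2 * k * m) * ∫ t in Set.Icc 0 T, ‖Gz (δ T) a m t‖ ^ (2 * k) ≤ ∫ t in Set.Icc 0 T, g T t := by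
    rw [← integral_const_mul]
    refine integral_mono ((hGc.continuousOn.integrableOn_compact isCompact_Icc).const_mul _) h4 fun t => ?_
    refine le_trans (le_of_eq ?_) (h5 t)
    show (δ T) ^ (2 * k * m) * ‖Gz (δ T) a m t‖ ^ (2 * k) = _
    rw [norm_smul, norm_pow, Complex.norm_real, Real.norm_of_nonneg h6.le, Real.mul_rpow (by positivity) (norm_nonneg _), ← Real.rpow_natCast (δ T) m,
      ← Real.rpow_mul h6.le]
    congr 2
    ring
  obtain ⟨X, hX⟩ : ∃ X : ℝ, X = ∫ t in Set.Icc 0 T, ‖Gz (δ T) a m t‖ ^ (2 * k) := ⟨_, rfl⟩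
  obtain ⟨Y, hY⟩ : ∃ Y : ℝ, Y = ∫ ω, ‖fun i => dm (bm h m (a i)) (fi k ω)‖ ^ (2 * k) ∂PG := ⟨_, rfl⟩
  obtain ⟨c, hc⟩ : ∃ c : ℝ, c = (2 * δ T) ^ (k ^ 2) / T := ⟨_, rfl⟩
  rw [← hX] at h10 h12
  rw [← hY] at hj h3
  rw [← hc] at h3 hc0 ⊢
  have e3 : (h * δ T) ^ (2 * k * m) = q * (δ T) ^ (2 * k * m) := by rw [hq, Real.mul_rpow hh0.le h6.le]
  rw [e3] at h9
  have hd0 : 0 ≤ (δ T) ^ (2 * k * m) := by positivity
  have hd1 : (δ T) ^ (2 * k * m) ≤ 1 := Real.rpow_le_one h6.le (by linarith) (by positivity)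
  have h13 : aF k * Y - ε / 3 * q ≤ c * (q * (δ T) ^ (2 * k * m) * (m * B ^ (2 * k) + X)) :=
    h3.trans (mul_le_mul_of_nonneg_left (h9.trans (mul_le_mul_of_nonneg_left h10 (by positivity))) hc0)
  have h14 : aF k * (q⁻¹ * Y) - ε / 3 ≤ c * ((δ T) ^ (2 * k * m) * (m * B ^ (2 * k) + X)) := by
    have h15 := mul_le_mul_of_nonneg_left h13 (inv_nonneg.mpr hq0.le)
    have e4 : q⁻¹ * (aF k * Y - ε / 3 * q) = aF k * (q⁻¹ * Y) - ε / 3 := by field_simp
    have e5 : q⁻¹ * (c * (q * (δ T) ^ (2 * k * m) * (m * B ^ (2 * k) + X))) = c * ((δ T) ^ (2 * k * m) * (m * B ^ (2 * k) + X)) := by field_simp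
    rw [e4, e5] at h15
    exact h15
  have hc1 : c ≤ 1 / T := by
    rw [hc]
    refine div_le_div_of_nonneg_right ?_ hT.le
    exact Real.rpow_le_one (by positivity) (by linarith) (by positivity)
  have h16 : c * ((δ T) ^ (2 * k * m) * (m * B ^ (2 * k))) ≤ ε / 3 := by
    have h17 : (δ T) ^ (2 * k * m) * (m * B ^ (2 * k)) ≤ m * B ^ (2 * k) := mul_le_of_le_one_left (by positivity) hd1
    have h18 : 0 ≤ (m : ℝ) * B ^ (2 * k) := by positivity
    calc c * ((δ T) ^ (2 * k * m) * (m * B ^ (2 * k))) ≤ 1 / T * (m * B ^ (2 * k)) := mul_le_mul hc1 h17 (by positivity) (by positivity)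
      _ = m * B ^ (2 * k) / T := by ring
      _ ≤ ε / 3 := h8.le
  have h19 : c * ((δ T) ^ (2 * k * m) * X) ≤ c * ∫ t in Set.Icc 0 T, g T t := mul_le_mul_of_nonneg_left h12 hc0
  have e6 : c * ((δ T) ^ (2 * k * m) * (m * B ^ (2 * k) + X)) = c * ((δ T) ^ (2 * k * m) * (m * B ^ (2 * k))) + c * ((δ T) ^ (2 * k * m) * X) := by ring
  linarith

/-- the maximum of the derivative of the limit field over a window -/
noncomputable def Sf (k : ℝ) (H : ℝ) (m : ℕ) (ω : ℕ → ℝ × ℝ) : ℝ := ⨆ a : Set.Icc (-H) H, ‖iteratedDeriv m (fi k ω) (Complex.I * ((a : ℝ) : ℂ))‖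

/-- the limits of the finite maxima -/
theorem Sf_lim {k : ℝ} (hk : 0 < k) {H : ℝ} (hH : 0 ≤ H) (m : ℕ) {q : ℕ → Set.Icc (-H) H} (hq : DenseRange q) :
    Integrable (fun ω => Sf k H m ω ^ (2 * k)) PG ∧
    Tendsto (fun n : ℕ => ∫ ω, ‖Gf k ω (fun j : Fin n => (q j : ℝ)) m 0‖ ^ (2 * k) ∂PG) atTop (𝓝 (∫ ω, Sf k H m ω ^ (2 * k) ∂PG)) := by
  have hne : Nonempty (Set.Icc (-H) H) := ⟨q 0⟩
  obtain ⟨r, hr0, hr1, hb⟩ := fi_jet_bd hk (H := H) hH
  obtain ⟨Q, hQ⟩ : ∃ Q : ℝ, Q = (m.factorial * 4 ^ m) * (5 / 8) ^ (-k) := ⟨_, rfl⟩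
  have hQ0 : 0 ≤ Q := by rw [hQ]; positivity
  obtain ⟨g, hg⟩ : ∃ g : (ℕ → ℝ × ℝ) → ℝ, g = fun ω => (Q * Real.exp (mj r ω)) ^ (2 * k) := ⟨_, rfl⟩
  have hgi : Integrable g PG := by
    refine ((mj_exp hr0 hr1 (2 * k)).const_mul (Q ^ (2 * k))).congr (Eventually.of_forall fun ω => ?_)
    rw [hg]
    simp only
    rw [Real.mul_rpow hQ0 (Real.exp_pos _).le, ← Real.exp_mul]
    congr 2
    ring
  have hub : ∀ ω, Gd ω → ∀ a : Set.Icc (-H) H, ‖iteratedDeriv m (fi k ω) (Complex.I * ((a : ℝ) : ℂ))‖ ≤ Q * Real.exp (mj r ω) := by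
    intro ω hω a
    refine (hb m ω hω a (abs_le.mpr a.2)).trans (le_of_eq ?_)
    rw [hQ]
    ring
  have hcont : ∀ ω, Gd ω → Continuous fun a : Set.Icc (-H) H => iteratedDeriv m (fi k ω) (Complex.I * ((a : ℝ) : ℂ)) := by
    intro ω hω
    have h1 : Continuous fun x : ℝ => iteratedDeriv m (fi k ω) (Complex.I * (x : ℂ)) := by
      rw [continuous_iff_continuousAt]
      intro x
      exact (fi_hasDeriv k hω m x).continuousAt.comp (f := fun x : ℝ => Complex.I * (x : ℂ)) (by fun_prop)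
    exact h1.comp continuous_subtype_val
  have hG : ∀ ω (n : ℕ), Gf k ω (fun j : Fin n => (q j : ℝ)) m 0 = fun j : Fin n => iteratedDeriv m (fi k ω) (Complex.I * ((q j : ℝ) : ℂ)) := by
    intro ω n
    funext j
    unfold Gf
    rw [zero_add]
  have hpt : ∀ ω, Gd ω → Tendsto (fun n : ℕ => ‖Gf k ω (fun j : Fin n => (q j : ℝ)) m 0‖ ^ (2 * k)) atTop (𝓝 (Sf k H m ω ^ (2 * k))) := by
    intro ω hω
    have h1 := (sup_dense (⟨fun a => iteratedDeriv m (fi k ω) (Complex.I * ((a : ℝ) : ℂ)), hcont ω hω⟩ : C(Set.Icc (-H) H, ℂ)) hq).rpow_const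
      (p := 2 * k) (Or.inr (by positivity))
    rw [ContinuousMap.norm_eq_iSup_norm] at h1
    simp only [ContinuousMap.coe_mk] at h1
    simp_rw [hG]
    exact h1
  have hme : ∀ n : ℕ, AEStronglyMeasurable (fun ω => ‖Gf k ω (fun j : Fin n => (q j : ℝ)) m 0‖ ^ (2 * k)) PG :=
    fun n => (Gf_lim hk (fun j : Fin n => (q j : ℝ)) m).1.aestronglyMeasurable
  have hlm : AEStronglyMeasurable (fun ω => Sf k H m ω ^ (2 * k)) PG := by
    refine aestronglyMeasurable_of_tendsto_ae atTop hme ?_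
    filter_upwards [Gd_ae] with ω hω
    exact hpt ω hω
  have hS0 : ∀ ω, 0 ≤ Sf k H m ω := fun ω => Real.iSup_nonneg fun a => norm_nonneg _
  refine ⟨hgi.mono hlm ?_, ?_⟩
  · filter_upwards [Gd_ae] with ω hω
    rw [hg, Real.norm_of_nonneg (Real.rpow_nonneg (hS0 ω) _), Real.norm_of_nonneg (by positivity)]
    exact Real.rpow_le_rpow (hS0 ω) (ciSup_le (hub ω hω)) (by positivity)
  · refine tendsto_integral_of_dominated_convergence g hme hgi (fun n => ?_) ?_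
    · filter_upwards [Gd_ae] with ω hω
      rw [Real.norm_of_nonneg (by positivity), hg]
      refine Real.rpow_le_rpow (norm_nonneg _) ?_ (by positivity)
      rw [hG, pi_norm_le_iff_of_nonneg (by positivity)]
      intro j
      exact hub ω hω (q j)
    · filter_upwards [Gd_ae] with ω hω
      exact hpt ω hω

/-- the maximum of the derivative of zeta over a window -/
noncomputable def Sz (δ H : ℝ) (m : ℕ) (t : ℝ) : ℝ :=
  ⨆ a : Set.Icc (-H) H, ‖(δ : ℂ) ^ m * iteratedDeriv m riemannZeta (1 / 2 + δ + ((t + a * δ : ℝ) : ℂ) * Complex.I)‖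

lemma Sz_joint {δ : ℝ} (hδ : δ < 1 / 2) (m : ℕ) :
    Continuous fun x : ℝ × ℝ => (δ : ℂ) ^ m * iteratedDeriv m riemannZeta (1 / 2 + δ + ((x.1 + x.2 * δ : ℝ) : ℂ) * Complex.I) := by
  have h1 : Continuous fun t : ℝ => iteratedDeriv m riemannZeta (1 / 2 + δ + (t : ℂ) * Complex.I) := by
    rw [continuous_iff_continuousAt]
    intro t
    exact ((zeta_an m) _ (pt_ne hδ t)).continuousAt.comp (f := fun t : ℝ => (1 / 2 + δ + (t : ℂ) * Complex.I : ℂ)) (by fun_prop)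
  have h2 : Continuous fun x : ℝ × ℝ => x.1 + x.2 * δ := by fun_prop
  exact continuous_const.mul (h1.comp h2)

lemma Sz_cont {δ : ℝ} (hδ : δ < 1 / 2) (H : ℝ) (m : ℕ) : Continuous (Sz δ H m) := by
  have h1 := (isCompact_Icc (a := -H) (b := H)).continuous_sSup
    (f := fun t a => ‖(δ : ℂ) ^ m * iteratedDeriv m riemannZeta (1 / 2 + δ + ((t + a * δ : ℝ) : ℂ) * Complex.I)‖) (by
    exact (Sz_joint hδ m).norm)
  refine h1.congr fun t => ?_
  unfold Sz
  rw [sSup_image']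

lemma Sz_bdd {δ : ℝ} (hδ : δ < 1 / 2) (H : ℝ) (m : ℕ) (t : ℝ) :
    BddAbove (Set.range fun a : Set.Icc (-H) H => ‖(δ : ℂ) ^ m * iteratedDeriv m riemannZeta (1 / 2 + δ + ((t + a * δ : ℝ) : ℂ) * Complex.I)‖) := by
  have h1 : Continuous fun a : ℝ => ‖(δ : ℂ) ^ m * iteratedDeriv m riemannZeta (1 / 2 + δ + ((t + a * δ : ℝ) : ℂ) * Complex.I)‖ :=
    ((Sz_joint hδ m).comp (by fun_prop : Continuous fun a : ℝ => (t, a))).norm
  have h2 := (isCompact_Icc (a := -H) (b := H)).bddAbove_image h1.continuousOn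
  rwa [Set.image_eq_range] at h2

/-- **Lower bounds for the moments of the maxima of the derivatives.** -/
theorem low_max {k : ℝ} (hk : 1 / 2 ≤ k) {δ : ℝ → ℝ} (hδ : Tendsto δ atTop (𝓝 0)) (hδL : Tendsto (fun T => δ T * Real.log T) atTop atTop)
    {H : ℝ} (hH : 0 ≤ H) (m : ℕ) {ε : ℝ} (hε : 0 < ε) :
    ∀ᶠ T in atTop, aF k * ∫ ω, Sf k H m ω ^ (2 * k) ∂PG - ε ≤ (2 * δ T) ^ (k ^ 2) / T * ∫ t in Set.Icc 0 T, Sz (δ T) H m t ^ (2 * k) := by
  have hk0 : 0 < k := by linarith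
  have hne : Nonempty (Set.Icc (-H) H) := ⟨⟨0, by constructor <;> linarith⟩⟩
  obtain ⟨q, hq⟩ := TopologicalSpace.exists_dense_seq (Set.Icc (-H) H)
  obtain ⟨-, hlim⟩ := Sf_lim hk0 hH m hq
  have h2 := hlim.const_mul (aF k)
  obtain ⟨n, hn⟩ := (h2.eventually (lt_mem_nhds (show aF k * ∫ ω, Sf k H m ω ^ (2 * k) ∂PG - ε / 2 < aF k * ∫ ω, Sf k H m ω ^ (2 * k) ∂PG by linarith))).exists
  have h3 := low_fin hk hδ hδL (fun j : Fin n => (q j : ℝ)) m (g := fun T t => Sz (δ T) H m t ^ (2 * k)) ?_ ?_ (ε := ε / 2) (by positivity)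
  · filter_upwards [h3] with T hT
    linarith
  · filter_upwards [hδ.eventually (gt_mem_nhds (show (0:ℝ) < 1 / 2 by norm_num))] with T hT
    exact ((Sz_cont hT H m).rpow_const fun _ => Or.inr (by positivity)).continuousOn.integrableOn_compact isCompact_Icc
  · filter_upwards [hδ.eventually (gt_mem_nhds (show (0:ℝ) < 1 / 2 by norm_num))] with T hT t
    refine Real.rpow_le_rpow (norm_nonneg _) ?_ (by positivity)
    refine (pi_norm_le_iff_of_nonneg (Real.iSup_nonneg fun a => norm_nonneg _)).mpr fun j => ?_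
    exact le_ciSup (Sz_bdd hT H m t) (q j)

end Pool.Agent.X111.DL
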