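import Pool.Agent.X111.DL.Six

set_option autoImplicit false
set_option linter.unusedSectionVars false

/-! The mean values of the jets of the limit field. -/

namespace Pool.Agent.X111.DL

open MeasureTheory ProbabilityTheory Filter Topology
open Pool.Agent.X111.JD (ga nn nn_cont nn_int)
open Pool.Agent.X111.FL
open Pool.Agent.X111.HO

lemma fi_meas (k x : ℝ) : AEStronglyMeasurable (fun ω => fi k ω (Complex.I * x)) PG := by
  have h1 := gf_meas (Wm x) (Wm_norm x)
  unfold fi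
  refine AEStronglyMeasurable.const_mul ?_ _
  exact Complex.continuous_exp.comp_aestronglyMeasurable h1

lemma dm_meas (k : ℝ) (μ : ℝ →₀ ℂ) : AEStronglyMeasurable (fun ω => dm μ (fi k ω)) PG := by
  unfold dm Finsupp.sum
  refine Finset.aestronglyMeasurable_fun_sum _ fun x _ => ?_
  exact (fi_meas k x).const_mul _

lemma jet_meas (k : ℝ) (l : ℕ) (x : ℝ) : AEStronglyMeasurable (fun ω => iteratedDeriv l (fi k ω) (Complex.I * x)) PG := by
  refine aestronglyMeasurable_of_tendsto_ae atTop (f := fun (j : ℕ) ω => (((1 / ((j : ℝ) + 1) : ℝ) : ℂ) ^ l * Complex.I ^ l)⁻¹ *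
    dm (bm (1 / ((j : ℝ) + 1)) l x) (fi k ω)) (fun j => (dm_meas k _).const_mul _) ?_
  filter_upwards [Gd_ae] with ω hω
  obtain ⟨C, hC0, hC⟩ := cv Complex.norm_I (Gf_deriv k hω (fun _ : Fin 1 => x)) l 0 0 0
  rw [tendsto_iff_norm_sub_tendsto_zero]
  have h2 : Tendsto (fun j : ℕ => C * ((1 : ℝ) / (j + 1))) atTop (𝓝 0) := by
    have := (tendsto_one_div_add_atTop_nhds_zero_nat (𝕜 := ℝ)).const_mul C
    rwa [mul_zero] at this
  refine squeeze_zero (fun _ => norm_nonneg _) (fun j => ?_) h2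
  obtain ⟨h, hh⟩ : ∃ h : ℝ, h = 1 / ((j : ℝ) + 1) := ⟨_, rfl⟩
  have hh0 : 0 < h := by rw [hh]; positivity
  have hh1 : h ≤ 1 := by
    rw [hh, div_le_one (by positivity)]
    linarith [(Nat.cast_nonneg j : (0:ℝ) ≤ j)]
  rw [← hh]
  have h3 := (norm_le_pi_norm _ (0 : Fin 1)).trans (hC h hh0 hh1 0 (by simp))
  rw [Pi.sub_apply, Pi.smul_apply, nb_Gf] at h3
  have hz : (h : ℂ) ^ l * Complex.I ^ l ≠ 0 := mul_ne_zero (pow_ne_zero _ (by exact_mod_cast hh0.ne')) (pow_ne_zero _ Complex.I_ne_zero)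
  have e1 : ((h : ℂ) ^ l * Complex.I ^ l)⁻¹ * dm (bm h l x) (fi k ω) - iteratedDeriv l (fi k ω) (Complex.I * x) =
      ((h : ℂ) ^ l * Complex.I ^ l)⁻¹ * (dm (bm h l x) (fi k ω) - ((h : ℂ) ^ l * Complex.I ^ l) • Gf k ω (fun _ : Fin 1 => x) (0 + l) 0 0) := by
    rw [mul_sub, smul_eq_mul, inv_mul_cancel_left₀ hz]
    unfold Gf
    rw [zero_add, zero_add]
  rw [e1, norm_mul, norm_inv, norm_mul, norm_pow, norm_pow, Complex.norm_I, one_pow, mul_one, Complex.norm_real, Real.norm_of_nonneg hh0.le,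
    inv_mul_le_iff₀ (by positivity)]
  refine h3.trans (le_of_eq ?_)
  ring

/-- the mean value of a jet -/
noncomputable def ph (k : ℝ) (l : ℕ) (x : ℝ) : ℂ := ∫ ω, iteratedDeriv l (fi k ω) (Complex.I * x) ∂PG

lemma jet_int {k : ℝ} (hk : 0 < k) (l : ℕ) (x : ℝ) : Integrable (fun ω => iteratedDeriv l (fi k ω) (Complex.I * x)) PG := by
  obtain ⟨r, hr0, hr1, hb⟩ := fi_jet_bd hk (H := |x|) (abs_nonneg x)
  have h1 := ((mj_exp hr0 hr1 1).const_mul ((l.factorial * 4 ^ l) * (5 / 8) ^ (-k)))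
  refine h1.mono (jet_meas k l x) ?_
  filter_upwards [Gd_ae] with ω hω
  rw [Real.norm_of_nonneg (by positivity), one_mul]
  refine (hb l ω hω x le_rfl).trans (le_of_eq ?_)
  ring

lemma ph_deriv {k : ℝ} (hk : 0 < k) (l : ℕ) (x : ℝ) : HasDerivAt (ph k l) (Complex.I * ph k (l + 1) x) x := by
  obtain ⟨r, hr0, hr1, hb⟩ := fi_jet_bd hk (H := |x| + 1) (by positivity)
  have h1 := ((mj_exp hr0 hr1 1).const_mul (((l + 1).factorial * 4 ^ (l + 1)) * (5 / 8) ^ (-k)))
  have h2 := hasDerivAt_integral_of_dominated_loc_of_deriv_le (μ := PG) (F := fun (y : ℝ) ω => iteratedDeriv l (fi k ω) (Complex.I * y))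
    (F' := fun (y : ℝ) ω => Complex.I * iteratedDeriv (l + 1) (fi k ω) (Complex.I * y)) (x₀ := x) (s := Metric.ball x 1)
    (bound := fun ω => (((l + 1).factorial * 4 ^ (l + 1)) * (5 / 8) ^ (-k)) * Real.exp (1 * mj r ω)) (Metric.ball_mem_nhds x one_pos)
    (Eventually.of_forall fun y => jet_meas k l y) (jet_int hk l x) ((jet_meas k (l + 1) x).const_mul _) (by
      filter_upwards [Gd_ae] with ω hω y hy
      rw [norm_mul, Complex.norm_I, one_mul, one_mul]
      rw [Metric.mem_ball, Real.dist_eq] at hy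
      have h3 : |y| ≤ |x| + 1 := by
        have := abs_add_le (y - x) x
        rw [sub_add_cancel] at this
        linarith
      refine (hb (l + 1) ω hω y h3).trans (le_of_eq ?_)
      ring) h1 (by
      filter_upwards [Gd_ae] with ω hω y hy
      have h4 := fi_hasDeriv k hω l y
      have h5 : HasDerivAt (fun y : ℝ => Complex.I * (y : ℂ)) Complex.I y :=
        ((Complex.ofRealCLM.hasDerivAt (x := y)).const_mul Complex.I).congr_deriv (by simp)
      have h6 : HasDerivAt (fun y : ℝ => iteratedDeriv l (fi k ω) (Complex.I * y)) (iteratedDeriv (l + 1) (fi k ω) (Complex.I * y) * Complex.I) y :=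
        HasDerivAt.comp (h₂ := iteratedDeriv l (fi k ω)) (h := fun y : ℝ => Complex.I * (y : ℂ)) y h4 h5
      rw [mul_comm] at h6
      exact h6)
  have h3 := h2.2
  rw [integral_const_mul] at h3
  exact h3

lemma ph_zero {k : ℝ} (hk : 0 < k) (x : ℝ) : ph k 0 x = (1 + Complex.I * x / 2) ^ (-(k : ℂ)) := by
  unfold ph
  have _ := hk
  simp_rw [iteratedDeriv_zero]
  unfold fi
  rw [integral_const_mul]
  have h1 := gf_mixed (fun _ : Fin 1 => Wm x) (fun _ => Wm_norm x) (fun _ => 1) (fun _ => 0)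
  simp only [Finset.univ_unique, Finset.sum_singleton, Complex.ofReal_one, one_mul, Complex.ofReal_zero, zero_mul, Complex.exp_zero, map_one, mul_one,
    mul_zero] at h1
  unfold Wm at h1
  rw [h1, mul_one]

lemma ph_eq {k : ℝ} (hk : 0 < k) (l : ℕ) : ∀ x : ℝ, ph k l x = (∏ j ∈ Finset.range l, (-(((k + j) / 2 : ℝ) : ℂ))) * (1 + Complex.I * x / 2) ^ (-((k + l : ℝ) : ℂ)) := by
  induction l with
  | zero =>
    intro x
    rw [ph_zero hk]
    simp
  | succ l ih =>
    intro x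
    have e1 : ph k l = fun x : ℝ => (∏ j ∈ Finset.range l, (-(((k + j) / 2 : ℝ) : ℂ))) * (1 + Complex.I * x / 2) ^ (-((k + l : ℝ) : ℂ)) := funext ih
    have h1 := ph_deriv hk l x
    have h2 : HasDerivAt (ph k l) ((∏ j ∈ Finset.range l, (-(((k + j) / 2 : ℝ) : ℂ))) *
        (-((k + l : ℝ) : ℂ) * (1 + Complex.I * x / 2) ^ (-((k + l : ℝ) : ℂ) - 1) * (Complex.I / 2))) x := by
      rw [e1]
      refine HasDerivAt.const_mul _ ?_
      have h3 : HasDerivAt (fun z : ℂ => z ^ (-((k + l : ℝ) : ℂ))) (-((k + l : ℝ) : ℂ) * (1 + Complex.I * x / 2) ^ (-((k + l : ℝ) : ℂ) - 1) * 1)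
          (1 + Complex.I * x / 2) := (hasDerivAt_id _).cpow_const (Or.inl (by simp))
      have h4 : HasDerivAt (fun y : ℝ => (1 + Complex.I * y / 2 : ℂ)) (Complex.I / 2) x :=
        ((((Complex.ofRealCLM.hasDerivAt (x := x)).const_mul Complex.I).div_const 2).const_add 1).congr_deriv (by simp)
      have h5 : HasDerivAt (fun y : ℝ => (1 + Complex.I * y / 2 : ℂ) ^ (-((k + l : ℝ) : ℂ)))
          (-((k + l : ℝ) : ℂ) * (1 + Complex.I * x / 2) ^ (-((k + l : ℝ) : ℂ) - 1) * 1 * (Complex.I / 2)) x :=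
        HasDerivAt.comp (h₂ := fun z : ℂ => z ^ (-((k + l : ℝ) : ℂ))) (h := fun y : ℝ => (1 + Complex.I * y / 2 : ℂ)) x h3 h4
      rw [mul_one] at h5
      exact h5
    have h5 := h1.unique h2
    have h6 : ph k (l + 1) x = -Complex.I * (Complex.I * ph k (l + 1) x) := by
      rw [← mul_assoc, neg_mul, Complex.I_mul_I]
      ring
    rw [h6, h5, Finset.prod_range_succ]
    have e2 : (-((k + l : ℝ) : ℂ) - 1) = -((k + ((l + 1 : ℕ) : ℝ) : ℝ) : ℂ) := by push_cast; ring
    rw [e2]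
    have hI := Complex.I_mul_I
    push_cast
    linear_combination (-(∏ j ∈ Finset.range l, -(((k : ℂ) + j) / 2)) * (-((k : ℂ) + l)) * (1 + Complex.I * x / 2) ^ (-((k : ℂ) + (l + 1))) / 2) * hI

/-- the positive lower bound for the constants -/
theorem Gf_pos {k : ℝ} (hk : 1 / 2 ≤ k) (m : ℕ) :
    (∏ j ∈ Finset.range m, ((k + j) / 2)) ^ (2 * k) ≤ ∫ ω, ‖iteratedDeriv m (fi k ω) 0‖ ^ (2 * k) ∂PG := by
  have hk0 : 0 < k := by linarith
  have h1 := ph_eq hk0 m 0
  unfold ph at h1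
  simp only [Complex.ofReal_zero, mul_zero, zero_div, add_zero, Complex.one_cpow, mul_one] at h1
  have h2 : ‖∫ ω, iteratedDeriv m (fi k ω) 0 ∂PG‖ = ∏ j ∈ Finset.range m, ((k + j) / 2) := by
    rw [h1, norm_prod]
    refine Finset.prod_congr rfl fun j _ => ?_
    rw [norm_neg, Complex.norm_real, Real.norm_of_nonneg (by positivity)]
  have hi : Integrable (fun ω => iteratedDeriv m (fi k ω) 0) PG := by
    have := jet_int hk0 m 0
    simpa using this
  have hi2 : Integrable (fun ω => ‖iteratedDeriv m (fi k ω) 0‖ ^ (2 * k)) PG := by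
    have h3 := (Gf_lim hk0 (fun _ : Fin 1 => (0:ℝ)) m).1
    refine h3.congr (Eventually.of_forall fun ω => ?_)
    show ‖Gf k ω (fun _ : Fin 1 => (0:ℝ)) m 0‖ ^ (2 * k) = _
    congr 1
    unfold Gf
    rw [pi_norm_const]
    simp
  have h4 := (convexOn_rpow (show 1 ≤ 2 * k by linarith)).map_integral_le (μ := PG) (f := fun ω => ‖iteratedDeriv m (fi k ω) 0‖)
    (continuous_id.rpow_const fun _ => Or.inr (by positivity)).continuousOn isClosed_Ici (Eventually.of_forall fun ω => norm_nonneg _) hi.norm hi2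
  refine le_trans ?_ h4
  refine Real.rpow_le_rpow (Finset.prod_nonneg fun j _ => by positivity) ?_ (by positivity)
  rw [← h2]
  exact norm_integral_le_integral_norm _

end Pool.Agent.X111.DL
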