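import Pool.Agent.X111.DL.Low
import Pool.Agent.X111.FL.One

set_option autoImplicit false
set_option linter.unusedSectionVars false

/-! The first derivative: explicit constants. -/

namespace Pool.Agent.X111.DL

open MeasureTheory ProbabilityTheory Filter Topology
open Pool.Agent.Y755
open Pool.Agent.Y753.NL
open Pool.Agent.Y753.SHR
open Pool.Agent.H306R2 (aF aF_pos)
open Pool.Agent.X111.JD (ga nn nn_cont nn_int)
open Pool.Agent.X111.FL
open Pool.Agent.X111.HO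

/-- the moment generating function of `ga` -/
noncomputable def fe (t : ℝ) : ℝ := Real.exp (t ^ 2 / 4)

lemma fe_smooth : ContDiff ℝ ⊤ fe := by unfold fe; fun_prop

lemma fe_diff (n : ℕ) : Differentiable ℝ (iteratedDeriv n fe) :=
  (fe_smooth.of_le le_top).differentiable_iteratedDeriv n (by exact_mod_cast WithTop.coe_lt_top _)

lemma fe_has (n : ℕ) (t : ℝ) : HasDerivAt (iteratedDeriv n fe) (iteratedDeriv (n + 1) fe t) t := by
  have h1 := (fe_diff n t).hasDerivAt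
  rwa [← iteratedDeriv_succ] at h1

lemma fe_one (t : ℝ) : iteratedDeriv 1 fe t = t / 2 * fe t := by
  rw [iteratedDeriv_one]
  have h1 : HasDerivAt fe (Real.exp (t ^ 2 / 4) * (2 * t / 4)) t := by
    have h2 : HasDerivAt (fun t : ℝ => t ^ 2 / 4) (2 * t / 4) t := by
      have := (hasDerivAt_pow 2 t).div_const 4
      exact this.congr_deriv (by simp)
    exact h2.exp
  rw [h1.deriv]
  unfold fe
  ring

lemma fe_rec (n : ℕ) : ∀ t : ℝ, iteratedDeriv (n + 2) fe t = t / 2 * iteratedDeriv (n + 1) fe t + (n + 1) / 2 * iteratedDeriv n fe t := by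
  induction n with
  | zero =>
    intro t
    have h1 : HasDerivAt (iteratedDeriv 1 fe) (1 / 2 * fe t + t / 2 * iteratedDeriv 1 fe t) t := by
      have e1 : iteratedDeriv 1 fe = fun t => t / 2 * fe t := funext fe_one
      rw [e1]
      have h2 := fe_has 0 t
      rw [iteratedDeriv_zero, zero_add, e1] at h2
      exact (((hasDerivAt_id t).div_const 2).mul h2).congr_deriv (by simp)
    have h3 := (fe_has 1 t).unique h1
    rw [zero_add, h3, iteratedDeriv_zero]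
    push_cast
    ring
  | succ n ih =>
    intro t
    have e1 : iteratedDeriv (n + 2) fe = fun t => t / 2 * iteratedDeriv (n + 1) fe t + (n + 1) / 2 * iteratedDeriv n fe t := funext ih
    have h1 : HasDerivAt (iteratedDeriv (n + 2) fe) (1 / 2 * iteratedDeriv (n + 1) fe t + t / 2 * iteratedDeriv (n + 2) fe t +
        (n + 1) / 2 * iteratedDeriv (n + 1) fe t) t := by
      nth_rewrite 1 [e1]
      exact ((((hasDerivAt_id t).div_const 2).mul (fe_has (n + 1) t)).add ((fe_has n t).const_mul _)).congr_deriv (by simp)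
    have h3 := (fe_has (n + 2) t).unique h1
    have e2 : n + 1 + 2 = n + 2 + 1 := by ring
    have e3 : n + 1 + 1 = n + 2 := by ring
    rw [e2, h3, e3]
    push_cast
    ring

/-- the moments of `ga` -/
lemma ga_pow (n : ℕ) : ∫ x, x ^ n ∂ga = iteratedDeriv n fe 0 := by
  have h1 := iteratedDeriv_mgf_zero (X := fun x : ℝ => x) (μ := gaussianReal 0 (1 / 2)) (by simp) n
  rw [mgf_fun_id_gaussianReal] at h1
  unfold ga
  have e1 : (fun t : ℝ => Real.exp (0 * t + ((1 / 2 : NNReal) : ℝ) * t ^ 2 / 2)) = fe := by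
    funext t
    unfold fe
    congr 1
    push_cast
    ring
  rw [e1] at h1
  rw [h1]
  rfl

lemma ga_rec (n : ℕ) : ∫ x, x ^ (n + 2) ∂ga = (n + 1) / 2 * ∫ x, x ^ n ∂ga := by
  rw [ga_pow, ga_pow, fe_rec]
  ring

lemma ga_0 : ∫ x, x ^ 0 ∂ga = 1 := by simp
lemma ga_1 : ∫ x, x ^ 1 ∂ga = 0 := by rw [ga_pow, fe_one]; simp
lemma ga_2 : ∫ x, x ^ 2 ∂ga = 1 / 2 := by rw [ga_rec 0, ga_0]; norm_num
lemma ga_3 : ∫ x, x ^ 3 ∂ga = 0 := by rw [ga_rec 1, ga_1]; norm_num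
lemma ga_4 : ∫ x, x ^ 4 ∂ga = 3 / 4 := by rw [ga_rec 2, ga_2]; norm_num
lemma ga_5 : ∫ x, x ^ 5 ∂ga = 0 := by rw [ga_rec 3, ga_3]; norm_num
lemma ga_6 : ∫ x, x ^ 6 ∂ga = 15 / 8 := by rw [ga_rec 4, ga_4]; norm_num
lemma ga_7 : ∫ x, x ^ 7 ∂ga = 0 := by rw [ga_rec 5, ga_5]; norm_num
lemma ga_8 : ∫ x, x ^ 8 ∂ga = 105 / 16 := by rw [ga_rec 6, ga_6]; norm_num

lemma ga_pint (n : ℕ) : Integrable (fun x : ℝ => x ^ n) ga := by
  unfold ga
  exact integrable_pow_of_mem_interior_integrableExpSet (X := fun x : ℝ => x) (by simp) n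

/-- polynomials -/
lemma ga_poly (N : ℕ) (c : ℕ → ℝ) : ∫ x, ∑ n ∈ Finset.range N, c n * x ^ n ∂ga = ∑ n ∈ Finset.range N, c n * ∫ x, x ^ n ∂ga := by
  rw [integral_finsetSum _ fun n _ => (ga_pint n).const_mul _]
  simp_rw [integral_const_mul]

lemma ga_polyint (N : ℕ) (c : ℕ → ℝ) : Integrable (fun x : ℝ => ∑ n ∈ Finset.range N, c n * x ^ n) ga :=
  integrable_finsetSum _ fun n _ => (ga_pint n).const_mul _

lemma ga_shift (N : ℕ) (c : ℝ) : ∫ x, (x + c) ^ N ∂ga = ∑ n ∈ Finset.range (N + 1), (c ^ (N - n) * N.choose n) * ∫ x, x ^ n ∂ga := by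
  rw [← ga_poly]
  refine integral_congr_ae (Eventually.of_forall fun x => ?_)
  show (x + c) ^ N = ∑ n ∈ Finset.range (N + 1), (c ^ (N - n) * N.choose n) * x ^ n
  rw [add_pow]
  exact Finset.sum_congr rfl fun n _ => by ring

lemma ga_shint (N : ℕ) (c : ℝ) : Integrable (fun x : ℝ => (x + c) ^ N) ga := by
  refine (ga_polyint (N + 1) fun n => c ^ (N - n) * N.choose n).congr (Eventually.of_forall fun x => ?_)
  show ∑ n ∈ Finset.range (N + 1), (c ^ (N - n) * N.choose n) * x ^ n = (x + c) ^ N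
  rw [add_pow]
  exact Finset.sum_congr rfl fun n _ => by ring

lemma ga_two (N : ℕ) (c : ℝ) : ∫ p : ℝ × ℝ, ((p.1 + c) ^ 2 + p.2 ^ 2) ^ N ∂(ga.prod ga) =
    ∑ n ∈ Finset.range (N + 1), N.choose n * ((∫ x, (x + c) ^ (2 * n) ∂ga) * ∫ y, y ^ (2 * (N - n)) ∂ga) := by
  have e1 : ∀ p : ℝ × ℝ, ((p.1 + c) ^ 2 + p.2 ^ 2) ^ N = ∑ n ∈ Finset.range (N + 1), N.choose n * ((p.1 + c) ^ (2 * n) * p.2 ^ (2 * (N - n))) := by
    intro p
    rw [add_pow]
    refine Finset.sum_congr rfl fun n _ => ?_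
    rw [← pow_mul, ← pow_mul]
    ring
  simp_rw [e1]
  rw [integral_finsetSum _ fun n _ => (((ga_shint (2 * n) c).mul_prod (ga_pint (2 * (N - n)))).const_mul _)]
  refine Finset.sum_congr rfl fun n _ => ?_
  rw [integral_const_mul, integral_prod_mul (fun x : ℝ => (x + c) ^ (2 * n)) (fun y : ℝ => y ^ (2 * (N - n)))]

lemma six : ∫ p : ℝ × ℝ, ((p.1 + (-3)) ^ 2 + p.2 ^ 2) ^ 3 ∂(ga.prod ga) = 1626 := by
  rw [ga_two]
  simp only [Finset.sum_range_succ, Finset.sum_range_zero, ga_shift, Nat.choose, mul_zero, mul_one, Nat.reduceMul, Nat.reduceAdd, Nat.reduceSub, tsub_zero,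
    tsub_self, ga_0, ga_1, ga_2, ga_3, ga_4, ga_5, ga_6, zero_add]
  norm_num

lemma eight : ∫ p : ℝ × ℝ, ((p.1 + (-4)) ^ 2 + p.2 ^ 2) ^ 4 ∂(ga.prod ga) = 151064 := by
  rw [ga_two]
  simp only [Finset.sum_range_succ, Finset.sum_range_zero, ga_shift, Nat.choose, mul_zero, mul_one, Nat.reduceMul, Nat.reduceAdd, Nat.reduceSub, tsub_zero,
    tsub_self, ga_0, ga_1, ga_2, ga_3, ga_4, ga_5, ga_6, ga_7, ga_8, zero_add]
  norm_num

/-- **Lower bounds for the moments of the first derivative.** -/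
theorem low_one {k : ℝ} (hk : 1 / 2 ≤ k) {δ : ℝ → ℝ} (hδ : Tendsto δ atTop (𝓝 0)) (hδL : Tendsto (fun T => δ T * Real.log T) atTop atTop)
    {ε : ℝ} (hε : 0 < ε) :
    ∀ᶠ T in atTop, aF k * ∫ p : ℝ × ℝ, ((p.1 - k) ^ 2 + p.2 ^ 2) ^ k ∂(ga.prod ga) - ε ≤
      (2 * δ T) ^ (k ^ 2 + 2 * k) / T * ∫ t in Set.Icc 0 T, ‖deriv riemannZeta (1 / 2 + δ T + (t : ℂ) * Complex.I)‖ ^ (2 * k) := by
  have hk0 : 0 < k := by linarith
  obtain ⟨q, hq⟩ : ∃ q : ℝ, q = 2 ^ (2 * k) := ⟨_, rfl⟩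
  have hq0 : 0 < q := by rw [hq]; positivity
  have h1 := low_fin hk hδ hδL (fun _ : Fin 1 => (0:ℝ)) 1 (g := fun T t => ‖((δ T : ℂ) ^ 1) • Gz (δ T) (fun _ : Fin 1 => (0:ℝ)) 1 t‖ ^ (2 * k)) (by
    filter_upwards [hδ.eventually (gt_mem_nhds (show (0:ℝ) < 1 / 2 by norm_num))] with T hT
    exact ((((Gz_cont hT _ 1).const_smul ((δ T : ℂ) ^ 1)).norm.rpow_const fun _ => Or.inr (by positivity))).continuousOn.integrableOn_compact isCompact_Icc)
    (Eventually.of_forall fun T t => le_rfl) (ε := ε / q) (by positivity)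
  have n1 : ∀ v : Fin 1 → ℂ, ‖v‖ = ‖v 0‖ := by
    intro v
    refine le_antisymm ?_ (norm_le_pi_norm v 0)
    rw [pi_norm_le_iff_of_nonneg (norm_nonneg _)]
    intro i
    rw [Subsingleton.elim i 0]
  have e1 : ∫ ω, ‖Gf k ω (fun _ : Fin 1 => (0:ℝ)) 1 0‖ ^ (2 * k) ∂PG = q⁻¹ * ∫ p : ℝ × ℝ, ((p.1 - k) ^ 2 + p.2 ^ 2) ^ k ∂(ga.prod ga) := by
    have hc : Continuous fun p : ℝ × ℝ => ((p.1 - k) ^ 2 + p.2 ^ 2) ^ k := Continuous.rpow_const (by fun_prop) fun _ => Or.inr hk0.le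
    rw [← integral_const_mul, ← PG_eval 0, integral_map (measurable_pi_apply 0).aemeasurable (continuous_const.mul hc).aestronglyMeasurable]
    refine integral_congr_ae ?_
    filter_upwards [Gd_ae] with ω hω
    rw [n1]
    unfold Gf
    rw [iteratedDeriv_one, add_zero, Complex.ofReal_zero, mul_zero, (fi_deriv k hω).deriv, norm_div, Complex.norm_ofNat,
      Real.div_rpow (norm_nonneg _) (by norm_num), ← hq]
    have e2 : ‖nn (ω 0) - k‖ ^ 2 = ((ω 0).1 - k) ^ 2 + (ω 0).2 ^ 2 := by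
      rw [← Complex.normSq_eq_norm_sq, Complex.normSq_apply]
      unfold nn
      simp
      ring
    rw [← e2, Real.rpow_mul (norm_nonneg _), Real.rpow_two]
    ring
  rw [e1] at h1
  filter_upwards [h1, pos_path hδL] with T h2 hd
  have e3 : (2 * δ T) ^ (k ^ 2 + 2 * k) = (2 * δ T) ^ (k ^ 2) * (q * (δ T) ^ (2 * k)) := by
    rw [Real.rpow_add (by positivity), Real.mul_rpow (by norm_num) hd.le, hq, Real.mul_rpow (by norm_num) hd.le]
  have e4 : ∫ t in Set.Icc 0 T, ‖((δ T : ℂ) ^ 1) • Gz (δ T) (fun _ : Fin 1 => (0:ℝ)) 1 t‖ ^ (2 * k) =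
      (δ T) ^ (2 * k) * ∫ t in Set.Icc 0 T, ‖deriv riemannZeta (1 / 2 + δ T + (t : ℂ) * Complex.I)‖ ^ (2 * k) := by
    rw [← integral_const_mul]
    refine integral_congr_ae (Eventually.of_forall fun t => ?_)
    show ‖((δ T : ℂ) ^ 1) • Gz (δ T) (fun _ : Fin 1 => (0:ℝ)) 1 t‖ ^ (2 * k) = _
    rw [norm_smul, n1, pow_one, Complex.norm_real, Real.norm_of_nonneg hd.le, Real.mul_rpow hd.le (norm_nonneg _)]
    unfold Gz
    rw [iteratedDeriv_one, zero_mul, add_zero]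
  rw [e4] at h2
  have h3 := mul_le_mul_of_nonneg_left h2 hq0.le
  rw [e3]
  have e5 : q * (aF k * (q⁻¹ * ∫ p : ℝ × ℝ, ((p.1 - k) ^ 2 + p.2 ^ 2) ^ k ∂(ga.prod ga)) - ε / q) =
      aF k * ∫ p : ℝ × ℝ, ((p.1 - k) ^ 2 + p.2 ^ 2) ^ k ∂(ga.prod ga) - ε := by field_simp
  rw [e5] at h3
  refine h3.trans (le_of_eq ?_)
  ring

end Pool.Agent.X111.DL
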